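import Pool.Agent.K3h20.FB.Stm

/-!
# Flips of CM fields give flips of Weil numbers
-/

set_option autoImplicit false

open Polynomial NumberField

namespace Pool.Agent.K3h51.FB

open Pool.Agent.K3h20.FB

/-- roots of the integral minimal polynomial are conjugates -/
theorem exists_emb {E : Type} [Field E] [NumberField E] {π : E} (hπ : IsIntegral ℤ π) {z : ℂ}
    (hz : Rt (minpoly ℤ π) z) : ∃ φ : E →+* ℂ, φ π = z := by
  have h1 : minpoly ℚ π = (minpoly ℤ π).map (algebraMap ℤ ℚ) :=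
    minpoly.isIntegrallyClosed_eq_field_fractions' ℚ hπ
  have h2 : (minpoly ℚ π).map (algebraMap ℚ ℂ) = (minpoly ℤ π).map (Int.castRingHom ℂ) := by
    rw [h1, Polynomial.map_map]
    congr 1
  have h3 : z ∈ (minpoly ℚ π).rootSet ℂ := by
    rw [Polynomial.mem_rootSet]
    refine ⟨minpoly.ne_zero hπ.tower_top, ?_⟩
    rw [← Polynomial.eval_map_algebraMap, h2]
    exact hz
  rw [← NumberField.Embeddings.range_eval_eq_rootSet_minpoly E ℂ π] at h3
  exact h3

theorem t_FLP : S_FLP := by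
  intro p a hp E E' _ _ _ _ π π' hπ hπ' hn hσ z w hz hw
  obtain ⟨φ, rfl⟩ := exists_emb hπ hz
  obtain ⟨ψ, rfl⟩ := exists_emb hπ' hw
  obtain ⟨σ, h1, h2⟩ := hσ φ ψ
  refine ⟨σ, h1 π, ?_⟩
  rw [h2 π']
  have h3 : ψ π' * (starRingEnd ℂ) (ψ π') = (p : ℂ) ^ a := by
    rw [Complex.mul_conj, Complex.normSq_eq_norm_sq, hn ψ]
    push_cast
    rfl
  have h4 : ψ π' ≠ 0 := by
    intro h0
    rw [h0, zero_mul] at h3
    have h5 : (p : ℂ) ≠ 0 := by exact_mod_cast hp.ne_zero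
    exact pow_ne_zero a h5 h3.symm
  rw [eq_div_iff h4, mul_comm]
  exact h3

end Pool.Agent.K3h51.FB
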